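import Pool.Agent.R812.HS
import Pool.Agent.Helper162.Arc.PA

/-!
# Q1: the continuum HS(p,X) need not be aposyndetic
-/

set_option autoImplicit false

open Set Topology TopologicalSpace

namespace Pool.Agent.Results.MP_53bf97_gt.NotAposyndetic

open Pool.Agent.R812.HSp Pool.Agent.R812.Cont

/-- Negative answer to Q1. In general, if `a ≠ p` are points of a continuum `X` and `HS(p,X)` is
aposyndetic (at the point given by `{a}` with respect to the point given by `C(p,X)`), then some
subcontinuum of `X` contains `a` in its interior and misses `p`. There is a nondegenerate continuum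
`X` such that `HS(p,X)` is not aposyndetic for any `p ∈ X`. -/
theorem result :
    (∀ (X : Type) [MetricSpace X] [CompactSpace X] [ConnectedSpace X] (p a : X),
      AposyndeticAt (qm p (sing a)) (qm p (sing p)) →
        ∃ K : Set X, IsSubcontinuum K ∧ a ∈ interior K ∧ p ∉ K) ∧
    ∃ (X : Type) (_ : MetricSpace X), CompactSpace X ∧ ConnectedSpace X ∧ Nontrivial X ∧
      ∀ p : X, ¬ Aposyndetic (HS p) := by
  refine ⟨fun X _ _ _ p a h => aposyndetic_criterion h, Pool.Agent.Helper162.Arc.PA,
    TopologicalSpace.metrizableSpaceMetric Pool.Agent.Helper162.Arc.PA, inferInstance,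
    inferInstance, inferInstance, ?_⟩
  let _ : MetricSpace Pool.Agent.Helper162.Arc.PA :=
    TopologicalSpace.metrizableSpaceMetric Pool.Agent.Helper162.Arc.PA
  intro p hap
  obtain ⟨a, ha⟩ := exists_ne p
  have hne : qm p (sing a) ≠ qm p (sing p) := by
    intro h
    rcases qm_eq.1 h with h1 | ⟨h1, -⟩
    · have h2 : ({a} : Set Pool.Agent.Helper162.Arc.PA) = {p} := by
        rw [← coe_sing a, ← coe_sing p, h1]
      exact ha (singleton_eq_singleton_iff.1 h2)
    · exact ha (mem_singleton_iff.1 h1).symm
  obtain ⟨K, hK, haK, hpK⟩ := aposyndetic_criterion (hap _ _ hne)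
  have hKne : K ≠ univ := fun h => hpK (h ▸ mem_univ p)
  obtain ⟨A, B, hA, hB, hAne, hBne, hAB⟩ := decomposable_of_interior hK hKne haK
  exact Pool.Agent.Helper162.Arc.pa_hi ⟨isCompact_univ, isConnected_univ⟩
    ⟨A, B, hA, hB, subset_univ _, subset_univ _, hAne, hBne, hAB⟩

end Pool.Agent.Results.MP_53bf97_gt.NotAposyndetic
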