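import Pool.Agent.R812.HS2

/-!
# Q2: the continuum HS(p,X) is always semi-aposyndetic
-/

set_option autoImplicit false

open Set Topology TopologicalSpace

namespace Pool.Agent.Results.MP_53bf97_gt.SemiAposyndetic

open Pool.Agent.R812.HSp

universe u

/-- Affirmative answer to Q2: for every (nondegenerate metric) continuum `X` and every `p ∈ X` the
quotient hyperspace `HS(p,X) = C(X)/C(p,X)` is semi-aposyndetic. -/
theorem result (X : Type u) [MetricSpace X] [CompactSpace X] [ConnectedSpace X] [Nontrivial X]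
    (p : X) : SemiAposyndetic (HS p) := by
  intro a b hab
  obtain ⟨A, rfl⟩ : ∃ A, qm p A = a := Quotient.exists_rep a
  obtain ⟨B, rfl⟩ : ∃ B, qm p B = b := Quotient.exists_rep b
  by_cases hA : p ∈ (A.1 : Set X)
  · by_cases hB : p ∈ (B.1 : Set X)
    · exact absurd (qm_eq.2 (Or.inr ⟨hA, hB⟩)) hab
    · exact Or.inl (aposyndetic_at hB hA hB (Or.inl rfl))
  · by_cases hB : p ∈ (B.1 : Set X)
    · exact Or.inr (aposyndetic_at hA hB hA (Or.inl rfl))
    · by_cases hAB : (A.1 : Set X) ⊆ B.1
      · have hne : ¬ (B.1 : Set X) ⊆ A.1 := by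
          intro h
          apply hab
          have h1 : A = B := Subtype.ext (SetLike.coe_injective (subset_antisymm hAB h))
          rw [h1]
        obtain ⟨x, hxB, hxA⟩ := not_subset.1 hne
        exact Or.inr (aposyndetic_at hA hxB hxA (Or.inr hB))
      · obtain ⟨x, hxA, hxB⟩ := not_subset.1 hAB
        exact Or.inl (aposyndetic_at hB hxA hxB (Or.inr hA))

end Pool.Agent.Results.MP_53bf97_gt.SemiAposyndetic
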